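import Mathlib

/-!
# Generic sequences of reals from `cov(N) = 𝔠`
-/

set_option autoImplicit false

namespace Pool.Agent.X215.RE

open Set MeasureTheory
open scoped Cardinal

/-- fewer than continuum many null sets do not cover `α` -/
def Cov (α : Type) [MeasureSpace α] : Prop :=
  ∀ (I : Type) (N : I → Set α), #I < 𝔠 → (∀ i, volume (N i) = 0) → ∃ z, ∀ i, z ∉ N i

/-- Fubini for null sets of `k + 1`-tuples -/
theorem sec (X : Type) [MeasureSpace X] [SigmaFinite (volume : Measure X)] (k : ℕ)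
    (N : Set (Fin (k + 1) → X)) (h : volume N = 0) :
    ∀ᵐ y : Fin k → X, volume {z : X | (Fin.snoc (α := fun _ => X) y z : Fin (k + 1) → X) ∈ N} = 0 := by
  let e := MeasurableEquiv.piFinSuccAbove (fun _ : Fin (k + 1) => X) (Fin.last k)
  have he : MeasurePreserving e volume volume :=
    volume_preserving_piFinSuccAbove (fun _ : Fin (k + 1) => X) (Fin.last k)
  have h1 : (volume : Measure (X × (Fin k → X))) (e.symm ⁻¹' N) = 0 := by
    rw [he.symm.measure_preimage_equiv]
    exact h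
  have h2 : (volume : Measure ((Fin k → X) × X)) (Prod.swap ⁻¹' (e.symm ⁻¹' N)) = 0 := by
    have h3 : MeasurePreserving (MeasurableEquiv.prodComm : (Fin k → X) × X ≃ᵐ X × (Fin k → X))
        volume volume := Measure.measurePreserving_swap
    have h4 := h3.measure_preimage_equiv (e.symm ⁻¹' N)
    rw [h1] at h4
    exact h4
  have h3 := Measure.measure_ae_null_of_prod_null h2
  filter_upwards [h3] with y hy
  have h4 : {z : X | (Fin.snoc (α := fun _ => X) y z : Fin (k + 1) → X) ∈ N} =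
      Prod.mk y ⁻¹' (Prod.swap ⁻¹' (e.symm ⁻¹' N)) := by
    ext z
    simp only [mem_ofPred_eq, mem_preimage, Prod.swap_prod_mk]
    have h5 : e.symm (z, y) = (Fin.snoc (α := fun _ => X) y z : Fin (k + 1) → X) := by
      have := Fin.insertNth_last' z y
      rw [← this]
      rfl
    rw [h5]
  rw [h4]
  exact hy

theorem pt_not_null (X : Type) [MeasureSpace X] [SigmaFinite (volume : Measure X)]
    (N : Set (Fin 0 → X)) (h : volume N = 0) (x : Fin 0 → X) : x ∉ N := by
  intro hx
  have h1 : N = univ := by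
    ext y
    simp only [mem_univ, iff_true]
    rw [Subsingleton.elim y x]
    exact hx
  rw [h1] at h
  have h2 : (volume : Measure (Fin 0 → X)) univ = 1 := by
    rw [volume_pi, Measure.pi_univ]
    simp
  rw [h2] at h
  exact one_ne_zero h

theorem cov_pi (h : Cov ℝ) : ∀ n : ℕ, Cov (Fin n → ℝ)
  | 0 => by
    intro I N _ h0
    exact ⟨0, fun i => pt_not_null ℝ (N i) (h0 i) 0⟩
  | n + 1 => by
    intro I N hI h0
    have h1 := fun i => sec ℝ n (N i) (h0 i)
    obtain ⟨y, hy⟩ := cov_pi h n I (fun i => {y : Fin n → ℝ | ¬ volume {z : ℝ |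
      (Fin.snoc (α := fun _ => ℝ) y z : Fin (n + 1) → ℝ) ∈ N i} = 0}) hI h1
    obtain ⟨z, hz⟩ := h I (fun i => {z : ℝ |
      (Fin.snoc (α := fun _ => ℝ) y z : Fin (n + 1) → ℝ) ∈ N i}) hI
      (fun i => by simpa using hy i)
    exact ⟨_, hz⟩

theorem exists_rec {T W : Type} [LinearOrder T] [WellFoundedLT T]
    (P : ∀ t : T, (Set.Iio t → W) → W → Prop) (h : ∀ t f, ∃ z, P t f z) :
    ∃ x : T → W, ∀ t, P t (fun v => x v) (x t) := by
  choose g hg using h
  let x : T → W := (wellFounded_lt (α := T)).fix (fun t ih => g t (fun v => ih v.1 v.2))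
  refine ⟨x, fun t => ?_⟩
  have h1 : x t = g t (fun v => x v) := by
    simp only [x]
    rw [WellFounded.fix_eq]
  rw [h1]
  exact hg t _

theorem enum (X : Type) [MeasurableSpace X] [TopologicalSpace X] [SecondCountableTopology X]
    [BorelSpace X] (T : Type) (hT : #T = 𝔠) : ∃ e : T → Σ m : ℕ, Set (Fin (m + 1) → X),
      ∀ (m : ℕ) (N : Set (Fin (m + 1) → X)), MeasurableSet N → ∃ t, e t = ⟨m, N⟩ := by
  have h1 : #(Σ m : ℕ, {N : Set (Fin (m + 1) → X) // MeasurableSet N}) ≤ #T := by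
    rw [hT, Cardinal.mk_sigma]
    have h2 : ∀ m : ℕ, #{N : Set (Fin (m + 1) → X) // MeasurableSet N} ≤ 𝔠 := by
      intro m
      have : SecondCountableTopology (Fin (m + 1) → X) := inferInstance
      have : BorelSpace (Fin (m + 1) → X) := Pi.borelSpace
      have h0 : MeasurableSpace.CountablyGenerated (Fin (m + 1) → X) :=
        BorelSpace.countablyGenerated
      obtain ⟨b, hb, hb'⟩ := h0.isCountablyGenerated
      have h3 := MeasurableSpace.cardinal_measurableSet_le_continuum (s := b)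
        (le_trans hb.le_aleph0 Cardinal.aleph0_le_continuum)
      rw [← hb'] at h3
      exact h3
    refine (Cardinal.sum_le_sum _ _ h2).trans ?_
    rw [Cardinal.sum_const']
    simp
  obtain ⟨f⟩ := h1
  have h3 : Nonempty (Σ m : ℕ, {N : Set (Fin (m + 1) → X) // MeasurableSet N}) :=
    ⟨⟨0, ⟨∅, MeasurableSet.empty⟩⟩⟩
  refine ⟨fun t => ⟨(Function.invFun f t).1, (Function.invFun f t).2.1⟩, fun m N hN => ?_⟩
  exact ⟨f ⟨m, ⟨N, hN⟩⟩, congrArg (fun p : (Σ m : ℕ, {N : Set (Fin (m + 1) → X) //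
    MeasurableSet N}) => (⟨p.1, p.2.1⟩ : Σ m : ℕ, Set (Fin (m + 1) → X)))
    (Function.leftInverse_invFun f.injective ⟨m, ⟨N, hN⟩⟩)⟩

theorem exists_generic (X : Type) [MeasureSpace X] [TopologicalSpace X]
    [SecondCountableTopology X] [BorelSpace X] [SigmaFinite (volume : Measure X)] (hc : Cov X) (T : Type) [LinearOrder T] [WellFoundedLT T]
    [Nonempty T] (hT : #T = 𝔠) (hlt : ∀ t : T, #(Iio t) < 𝔠) :
    ∃ x : T → X, ∀ (k : ℕ) (N : Set (Fin k → X)), volume N = 0 →
      ∃ γ : T, ∀ s : Fin k → T, StrictMono s → (∀ i, γ < s i) → (fun i => x (s i)) ∉ N := by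
  obtain ⟨e, he⟩ := enum X T hT
  have h1 : ∀ (t : T) (f : Iio t → X), ∃ z, ∀ (s : Iio t) (y : Fin (e s).1 → Iio t),
      volume {z' : X | (Fin.snoc (α := fun _ => X) (fun i => f (y i)) z' :
        Fin ((e s).1 + 1) → X) ∈ (e s).2} = 0 →
      (Fin.snoc (α := fun _ => X) (fun i => f (y i)) z : Fin ((e s).1 + 1) → X) ∉ (e s).2 := by
    intro t f
    classical
    let A : (Σ s : Iio t, (Fin (e s).1 → Iio t)) → Set X := fun p =>
      {z' : X | (Fin.snoc (α := fun _ => X) (fun i => f (p.2 i)) z' :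
        Fin ((e p.1).1 + 1) → X) ∈ (e p.1).2}
    have hcard : #(Σ s : Iio t, (Fin (e s).1 → Iio t)) < 𝔠 := by
      rw [Cardinal.mk_sigma]
      have h2 : ∀ s : Iio t, #(Fin (e s).1 → Iio t) ≤ max (#(Iio t)) ℵ₀ := by
        intro s
        have h3 : #(Fin (e s).1 → Iio t) = #(Iio t) ^ ((e s).1 : ℕ) := by
          simp
        rw [h3]
        exact Cardinal.power_nat_le_max
      refine lt_of_le_of_lt (Cardinal.sum_le_sum _ _ h2) ?_
      rw [Cardinal.sum_const']
      exact Cardinal.mul_lt_of_lt Cardinal.aleph0_le_continuum (hlt t)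
        (max_lt (hlt t) Cardinal.aleph0_lt_continuum)
    obtain ⟨z, hz⟩ := hc _ (fun p => if volume (A p) = 0 then A p else ∅) hcard (by
      intro p
      split_ifs with h
      · exact h
      · simp)
    refine ⟨z, fun s y h0 hmem => ?_⟩
    have h3 := hz ⟨s, y⟩
    rw [if_pos (show volume (A ⟨s, y⟩) = 0 from h0)] at h3
    exact h3 hmem
  obtain ⟨x, hx⟩ := exists_rec (T := T) (W := X) _ h1
  have hx' : ∀ (t : T) (s : T), s < t → ∀ (p : Σ m : ℕ, Set (Fin (m + 1) → X)), e s = p →
      ∀ y : Fin p.1 → T, (∀ i, y i < t) →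
      volume {z' : X | (Fin.snoc (α := fun _ => X) (fun i => x (y i)) z' :
        Fin (p.1 + 1) → X) ∈ p.2} = 0 →
      (Fin.snoc (α := fun _ => X) (fun i => x (y i)) (x t) : Fin (p.1 + 1) → X) ∉ p.2 := by
    intro t s hs p hp
    subst hp
    intro y hy h0
    exact hx t ⟨s, hs⟩ (fun i => ⟨y i, hy i⟩) h0
  refine ⟨x, fun k => ?_⟩
  induction k with
  | zero =>
    intro N h0
    exact ⟨Classical.arbitrary T, fun s _ _ => pt_not_null X N h0 _⟩
  | succ k ih =>
    intro N h0
    have hN' : volume (toMeasurable volume N) = 0 := by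
      rw [measure_toMeasurable]
      exact h0
    obtain ⟨γ2, h2⟩ := he k (toMeasurable volume N) (measurableSet_toMeasurable _ _)
    have h3 := sec X k _ hN'
    obtain ⟨γ1, h4⟩ := ih {y : Fin k → X | ¬ volume {z : X |
      (Fin.snoc (α := fun _ => X) y z : Fin (k + 1) → X) ∈ toMeasurable volume N} = 0} h3
    refine ⟨max γ1 γ2, fun s hs hγ hmem => ?_⟩
    have h5 := h4 (fun i => s i.castSucc) (fun i j hij => hs (Fin.castSucc_lt_castSucc_iff.2 hij))
      (fun i => lt_of_le_of_lt (le_max_left _ _) (hγ _))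
    simp only [mem_ofPred_eq, not_not] at h5
    have h6 := hx' (s (Fin.last k)) γ2 (lt_of_le_of_lt (le_max_right _ _) (hγ _)) ⟨k, _⟩ h2
      (fun i => s i.castSucc) (fun i => hs (Fin.castSucc_lt_last i)) h5
    refine h6 ?_
    have h7 : (Fin.snoc (α := fun _ => X) (fun i : Fin k => x (s i.castSucc)) (x (s (Fin.last k))) :
        Fin (k + 1) → X) = fun i => x (s i) := by
      funext i
      refine Fin.lastCases ?_ (fun j => ?_) i
      · simp
      · simp
    rw [h7]
    exact subset_toMeasurable _ _ hmem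

end Pool.Agent.X215.RE
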